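import Pool.Agent.Y755.FK.Stm

/-!
# Ambiguous classes of imaginary quadratic fields (job FK-AMB2)
-/

set_option autoImplicit false

namespace Pool.Agent.Y688.FK

open NumberField Module Pool.Agent.Y755.FK

/-! ### The group of squarefree divisors -/

/-- the product of squarefree numbers modulo squares -/
def st (a b : ℕ) : ℕ := (a / Nat.gcd a b) * (b / Nat.gcd a b)

theorem sf_mul {x y : ℕ} (h : Squarefree (x * y)) : Nat.Coprime x y :=
  (Nat.squarefree_mul_iff.1 h).1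

theorem st_spec {a b : ℕ} (ha : Squarefree a) (hb : Squarefree b) : ∃ g x y : ℕ, g ≠ 0 ∧ a = g * x ∧
    b = g * y ∧ st a b = x * y ∧ Nat.Coprime x y ∧ Nat.Coprime g x ∧ Nat.Coprime g y ∧
    Nat.gcd a b = g := by
  have ha0 : a ≠ 0 := ha.ne_zero
  have hg : 0 < Nat.gcd a b := Nat.gcd_pos_of_pos_left _ (Nat.pos_of_ne_zero ha0)
  refine ⟨Nat.gcd a b, a / Nat.gcd a b, b / Nat.gcd a b, hg.ne',
    (Nat.mul_div_cancel' (Nat.gcd_dvd_left a b)).symm,
    (Nat.mul_div_cancel' (Nat.gcd_dvd_right a b)).symm, rfl, Nat.coprime_div_gcd_div_gcd hg,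
    ?_, ?_, rfl⟩
  · apply sf_mul
    rwa [Nat.mul_div_cancel' (Nat.gcd_dvd_left a b)]
  · apply sf_mul
    rwa [Nat.mul_div_cancel' (Nat.gcd_dvd_right a b)]

theorem st_dvd {a b N : ℕ} (hN : Squarefree N) (ha : a ∣ N) (hb : b ∣ N) : st a b ∣ N := by
  obtain ⟨g, x, y, -, h1, h2, h3, h4, -, -, -⟩ := st_spec (hN.squarefree_of_dvd ha)
    (hN.squarefree_of_dvd hb)
  rw [h3]
  exact Nat.Coprime.mul_dvd_of_dvd_of_dvd h4 ((Dvd.intro_left g h1.symm).trans ha)
    ((Dvd.intro_left g h2.symm).trans hb)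

theorem st_mul {a b : ℕ} (ha : Squarefree a) (hb : Squarefree b) :
    a * b = (Nat.gcd a b) ^ 2 * st a b := by
  obtain ⟨g, x, y, -, h1, h2, h3, -, -, -, h7⟩ := st_spec ha hb
  rw [h7, h3, h1, h2]
  ring

theorem st_st {a b : ℕ} (ha : Squarefree a) (hb : Squarefree b) : st (st a b) b = a := by
  obtain ⟨g, x, y, hg, h1, h2, h3, h4, h5, h6, h7⟩ := st_spec ha hb
  have hy : y ≠ 0 := by
    rintro rfl
    exact hb.ne_zero (by rw [h2, mul_zero])
  have e : Nat.gcd (x * y) (g * y) = y := by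
    rw [Nat.gcd_mul_right, Nat.Coprime.gcd_eq_one h5.symm, one_mul]
  rw [h3]
  unfold st
  rw [h2, e, Nat.mul_div_cancel _ (Nat.pos_of_ne_zero hy),
    Nat.mul_div_cancel _ (Nat.pos_of_ne_zero hy), h1, mul_comm]

theorem st_one {b : ℕ} : st 1 b = b := by
  unfold st
  simp

theorem st_self {b : ℕ} (hb : b ≠ 0) : st b b = 1 := by
  unfold st
  rw [Nat.gcd_self, Nat.div_self (Nat.pos_of_ne_zero hb)]

theorem rn_sf {n : ℕ} (hn : Squarefree n) : Squarefree (Rn n) := by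
  unfold Rn
  split_ifs with h
  · rw [Nat.squarefree_mul_iff]
    refine ⟨?_, Nat.prime_two.squarefree, hn⟩
    rw [Nat.coprime_two_left, Nat.odd_iff]
    omega
  · exact hn

/-- a product of two squarefree numbers is a square only if they are equal -/
theorem sf_eq {a b m : ℕ} (ha : Squarefree a) (hb : Squarefree b) (h : a * b = m ^ 2) : a = b := by
  have h1 : a ∣ m := (ha.dvd_pow_iff_dvd two_ne_zero).1 (h ▸ Dvd.intro b rfl)
  obtain ⟨c, rfl⟩ := h1
  have h2 : b = a * (c * c) := by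
    have h3 : a * b = a * (a * (c * c)) := by rw [h]; ring
    exact Nat.eq_of_mul_eq_mul_left (Nat.pos_of_ne_zero ha.ne_zero) h3
  have h4 : IsUnit c := hb c ⟨a, by rw [h2]; ring⟩
  rw [Nat.isUnit_iff] at h4
  rw [h2, h4]
  ring

theorem sf_eq_rat {a b : ℕ} (ha : Squarefree a) (hb : Squarefree b) {q : ℚ}
    (h : (a : ℚ) * b = q ^ 2) : a = b := by
  have h1 : IsSquare ((a * b : ℕ) : ℚ) := ⟨q, by push_cast; rw [h]; ring⟩
  obtain ⟨m, hm⟩ := Rat.isSquare_natCast_iff.mp h1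
  exact sf_eq ha hb (m := m) (by rw [hm]; ring)

/-! ### The field -/

variable {K : Type} [Field K] [NumberField K]

theorem exists_sigma (h2 : finrank ℚ K = 2) {n : ℕ} (hn : 0 < n) {s : K}
    (hs : s ^ 2 = -(n : K)) :
    ∃ σ : K ≃ₐ[ℚ] K, σ s = -s ∧ (∀ x, σ (σ x) = x) ∧
      ∀ x : K, σ x = x → ∃ q : ℚ, x = algebraMap ℚ K q := by
  have : Algebra.IsQuadraticExtension ℚ K := ⟨h2⟩
  have : IsGalois ℚ K := inferInstance
  have hcard : Nat.card (K ≃ₐ[ℚ] K) = 2 := by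
    rw [IsGalois.card_aut_eq_finrank, h2]
  have hsnot : ¬ ∃ q : ℚ, s = algebraMap ℚ K q := by
    rintro ⟨q, rfl⟩
    have h1 : q ^ 2 = -(n : ℚ) := by
      apply (algebraMap ℚ K).injective
      rw [map_pow, hs, map_neg, map_natCast]
    have h3 : (0 : ℚ) < n := by exact_mod_cast hn
    nlinarith [sq_nonneg q]
  have hex : ∃ σ : K ≃ₐ[ℚ] K, σ s ≠ s := by
    by_contra hcon
    push Not at hcon
    apply hsnot
    have := (IsGalois.mem_bot_iff_fixed (F := ℚ) (E := K) s).mpr hcon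
    rw [IntermediateField.mem_bot] at this
    obtain ⟨q, hq⟩ := this
    exact ⟨q, hq.symm⟩
  obtain ⟨σ, hσ⟩ := hex
  have hσ1 : σ ≠ 1 := by
    rintro rfl
    exact hσ rfl
  have hss : σ s = -s := by
    have h4 : (σ s) ^ 2 = s ^ 2 := by
      rw [← map_pow, hs, map_neg, map_natCast]
    rcases sq_eq_sq_iff_eq_or_eq_neg.mp h4 with h | h
    · exact absurd h hσ
    · exact h
  have hall : ∀ g : K ≃ₐ[ℚ] K, g = 1 ∨ g = σ := by
    intro g
    by_contra hcon
    push Not at hcon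
    obtain ⟨hg1, hg2⟩ := hcon
    have : Fintype (K ≃ₐ[ℚ] K) := Fintype.ofFinite _
    classical
    have h5 : ({1, σ, g} : Finset (K ≃ₐ[ℚ] K)).card ≤ Fintype.card (K ≃ₐ[ℚ] K) :=
      Finset.card_le_univ _
    rw [← Nat.card_eq_fintype_card, hcard] at h5
    rw [Finset.card_insert_of_notMem, Finset.card_insert_of_notMem, Finset.card_singleton] at h5
    · omega
    · simpa using Ne.symm hg2
    · simp [Ne.symm hg1, Ne.symm hσ1]
  refine ⟨σ, hss, ?_, ?_⟩
  · intro x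
    have h6 : σ * σ = 1 := by
      rcases hall (σ * σ) with h | h
      · exact h
      · exact absurd (mul_left_cancel (a := σ) (by rw [h, mul_one])) hσ1
    have := congrArg (fun g : K ≃ₐ[ℚ] K => g x) h6
    simpa using this
  · intro x hx
    have : ∀ g : K ≃ₐ[ℚ] K, g x = x := by
      intro g
      rcases hall g with h | h
      · rw [h]; rfl
      · rw [h]; exact hx
    have := (IsGalois.mem_bot_iff_fixed (F := ℚ) (E := K) x).mpr this
    rw [IntermediateField.mem_bot] at this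
    obtain ⟨q, hq⟩ := this
    exact ⟨q, hq.symm⟩

/-- an algebraic integer which is fixed is an integer -/
theorem int_of_fixed {σ : K ≃ₐ[ℚ] K}
    (hσ : ∀ x : K, σ x = x → ∃ q : ℚ, x = algebraMap ℚ K q) {x : K} (hi : IsIntegral ℤ x)
    (hx : σ x = x) : ∃ z : ℤ, x = (z : K) := by
  obtain ⟨q, hq⟩ := hσ _ hx
  have h2 : IsIntegral ℤ (algebraMap ℚ K q) := by
    rw [← hq]; exact hi
  have h3 : IsIntegral ℤ q := by
    rwa [isIntegral_algebraMap_iff (algebraMap ℚ K).injective] at h2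
  obtain ⟨z, hz⟩ := IsIntegrallyClosed.isIntegral_iff.mp h3
  refine ⟨z, ?_⟩
  rw [hq, ← hz]
  simp

theorem decomp {σ : K ≃ₐ[ℚ] K} {s : K} (hs0 : s ≠ 0) (hs : σ s = -s) (h2 : ∀ x, σ (σ x) = x)
    (hσ : ∀ x : K, σ x = x → ∃ q : ℚ, x = algebraMap ℚ K q) (x : K) :
    ∃ u v : ℚ, x = (u : K) + v * s ∧ σ x = (u : K) - v * s := by
  obtain ⟨u, hu⟩ := hσ ((x + σ x) / 2) (by
    rw [map_div₀, map_add, h2, add_comm, map_ofNat])
  obtain ⟨v, hv⟩ := hσ ((x - σ x) / (2 * s)) (by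
    rw [map_div₀, map_sub, h2, map_mul, hs, map_ofNat]
    field_simp
    ring)
  rw [eq_ratCast] at hu hv
  have hv' : (v : K) * s = (x - σ x) / 2 := by
    rw [← hv]
    field_simp
  refine ⟨u, v, ?_, ?_⟩
  · rw [hv', ← hu]
    ring
  · rw [hv', ← hu]
    ring

theorem uniq {σ : K ≃ₐ[ℚ] K} {s : K} (hs0 : s ≠ 0) (hs : σ s = -s) {p q r : ℚ}
    (h : (p : K) + q * s = r) : p = r ∧ q = 0 := by
  have h1 := congrArg σ h
  rw [map_add, map_mul, hs, map_ratCast, map_ratCast, map_ratCast] at h1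
  have h3 : (q : K) * s = 0 := by linear_combination (h - h1) / 2
  have h4 : (q : K) = 0 := by
    rcases mul_eq_zero.1 h3 with h | h
    · exact h
    · exact absurd h hs0
  have h5 : (p : K) = r := by
    rw [← h, h4]
    ring
  exact ⟨by exact_mod_cast h5, by exact_mod_cast h4⟩

/-! ### Ideals -/

theorem sq_inj {I J : Ideal (𝓞 K)} (h : I ^ 2 = J ^ 2) : I = J :=
  pow_left_injective two_ne_zero h

/-- the ideal with square `(b)` has the class `c` -/
def P (K : Type) [Field K] [NumberField K] (b : ℕ) (c : ClassGroup (𝓞 K)) : Prop :=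
  ∃ I : nonZeroDivisors (Ideal (𝓞 K)), (I : Ideal (𝓞 K)) ^ 2 = Ideal.span {((b : ℕ) : 𝓞 K)} ∧
    ClassGroup.mk0 I = c

theorem P_span {b : ℕ} {x : 𝓞 K} (hx : x ≠ 0)
    (h : Ideal.span {x} ^ 2 = Ideal.span {((b : ℕ) : 𝓞 K)}) : P K b 1 := by
  have h0 : Ideal.span {x} ≠ (⊥ : Ideal (𝓞 K)) := by
    rwa [Ne, Ideal.span_singleton_eq_bot]
  refine ⟨⟨Ideal.span {x}, mem_nonZeroDivisors_of_ne_zero h0⟩, h, ?_⟩
  rw [ClassGroup.mk0_eq_one_iff]
  exact ⟨⟨x, rfl⟩⟩

theorem P_st {N a b : ℕ} (hN : Squarefree N) (ha : a ∣ N) (hb : b ∣ N)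
    (hex : ∀ b : ℕ, b ∣ N → ∃ I : nonZeroDivisors (Ideal (𝓞 K)),
      (I : Ideal (𝓞 K)) ^ 2 = Ideal.span {((b : ℕ) : 𝓞 K)})
    {c c' : ClassGroup (𝓞 K)} (h : P K a c) (h' : P K b c') : P K (st a b) (c * c') := by
  obtain ⟨I, hI, rfl⟩ := h
  obtain ⟨J, hJ, rfl⟩ := h'
  obtain ⟨L, hL⟩ := hex _ (st_dvd hN ha hb)
  have hsa := hN.squarefree_of_dvd ha
  have hsb := hN.squarefree_of_dvd hb
  have hg : Nat.gcd a b ≠ 0 := fun h => hsa.ne_zero (Nat.eq_zero_of_gcd_eq_zero_left h)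
  have hg' : ((Nat.gcd a b : ℕ) : 𝓞 K) ≠ 0 := by exact_mod_cast hg
  have hg0 : Ideal.span {((Nat.gcd a b : ℕ) : 𝓞 K)} ≠ (⊥ : Ideal (𝓞 K)) := by
    rwa [Ne, Ideal.span_singleton_eq_bot]
  have key : (I : Ideal (𝓞 K)) * J = Ideal.span {((Nat.gcd a b : ℕ) : 𝓞 K)} * L := by
    apply sq_inj
    rw [mul_pow, mul_pow, hI, hJ, hL, Ideal.span_singleton_pow, Ideal.span_singleton_mul_span_singleton,
      Ideal.span_singleton_mul_span_singleton]
    congr 2
    have := st_mul hsa hsb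
    exact_mod_cast this
  refine ⟨L, hL, ?_⟩
  have e : I * J = ⟨Ideal.span {((Nat.gcd a b : ℕ) : 𝓞 K)}, mem_nonZeroDivisors_of_ne_zero hg0⟩ * L :=
    Subtype.ext key
  rw [← map_mul, e, map_mul]
  have e1 : ClassGroup.mk0 (⟨Ideal.span {((Nat.gcd a b : ℕ) : 𝓞 K)},
      mem_nonZeroDivisors_of_ne_zero hg0⟩ : nonZeroDivisors (Ideal (𝓞 K))) = 1 := by
    rw [ClassGroup.mk0_eq_one_iff]
    exact ⟨⟨_, rfl⟩⟩
  rw [e1, one_mul]

/-- the principal ideals among them -/
theorem P_one {n b : ℕ} (h2 : finrank ℚ K = 2) (hn : Squarefree n) {s : K}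
    (hs : s ^ 2 = -(n : K)) (hb : Squarefree b) (h1 : n ≠ 1) (h3 : n ≠ 3) (h : P K b 1) :
    b = 1 ∨ b = n := by
  have hn0 : 0 < n := Nat.pos_of_ne_zero hn.ne_zero
  have hnQ : (0 : ℚ) < n := by exact_mod_cast hn0
  have hbQ : (0 : ℚ) < b := by exact_mod_cast Nat.pos_of_ne_zero hb.ne_zero
  obtain ⟨σ, hσs, hσ2, hσ⟩ := exists_sigma h2 hn0 hs
  have hs0 : s ≠ 0 := by
    rintro rfl
    rw [zero_pow two_ne_zero, eq_comm, neg_eq_zero] at hs
    exact hn.ne_zero (by exact_mod_cast hs)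
  obtain ⟨I, hI, hc⟩ := h
  rw [ClassGroup.mk0_eq_one_iff] at hc
  obtain ⟨⟨g, hg⟩⟩ := hc
  have hg' : (I : Ideal (𝓞 K)) = Ideal.span {g} := hg
  rw [hg', Ideal.span_singleton_pow, Ideal.span_singleton_eq_span_singleton] at hI
  obtain ⟨ε, hε⟩ := hI
  -- the unit
  obtain ⟨x, y, hx, hx'⟩ := decomp hs0 hσs hσ2 hσ ((ε : 𝓞 K) : K)
  obtain ⟨x2, y2, hy, hy'⟩ := decomp hs0 hσs hσ2 hσ (((ε⁻¹ : (𝓞 K)ˣ) : 𝓞 K) : K)
  have hσint : ∀ z : 𝓞 K, IsIntegral ℤ (σ (z : K)) := fun z => z.isIntegral_coe.map σ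
  obtain ⟨t, ht⟩ := int_of_fixed hσ (x := ((ε : 𝓞 K) : K) + σ ((ε : 𝓞 K) : K))
    ((ε : 𝓞 K).isIntegral_coe.add (hσint _)) (by rw [map_add, hσ2, add_comm])
  obtain ⟨z, hz⟩ := int_of_fixed hσ (x := ((ε : 𝓞 K) : K) * σ ((ε : 𝓞 K) : K))
    ((ε : 𝓞 K).isIntegral_coe.mul (hσint _)) (by rw [map_mul, hσ2, mul_comm])
  obtain ⟨z', hz'⟩ := int_of_fixed hσ
    (x := (((ε⁻¹ : (𝓞 K)ˣ) : 𝓞 K) : K) * σ (((ε⁻¹ : (𝓞 K)ˣ) : 𝓞 K) : K))
    ((((ε⁻¹ : (𝓞 K)ˣ) : 𝓞 K)).isIntegral_coe.mul (hσint _)) (by rw [map_mul, hσ2, mul_comm])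
  have hee : ((ε : 𝓞 K) : K) * (((ε⁻¹ : (𝓞 K)ˣ) : 𝓞 K) : K) = 1 := by
    rw [← map_mul, ← Units.val_mul, mul_inv_cancel, Units.val_one, map_one]
  have hzz : z * z' = 1 := by
    have h4 : ((z * z' : ℤ) : K) = 1 := by
      push_cast
      rw [← hz, ← hz']
      have h5 := congrArg σ hee
      rw [map_mul, map_one] at h5
      linear_combination (σ ((ε : 𝓞 K) : K) * σ (((ε⁻¹ : (𝓞 K)ˣ) : 𝓞 K) : K)) * hee + h5
    exact_mod_cast h4
  have hn1 : (x : K) ^ 2 + n * y ^ 2 = z := by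
    rw [← hz, hx', hx]
    linear_combination ((y : K) ^ 2) * hs
  have hn1' : x ^ 2 + n * y ^ 2 = z := by exact_mod_cast hn1
  have hzpos : z = 1 := by
    rcases Int.eq_one_or_neg_one_of_mul_eq_one hzz with h | h
    · exact h
    · exfalso
      rw [h] at hn1'
      push_cast at hn1'
      nlinarith [sq_nonneg x, mul_nonneg hnQ.le (sq_nonneg y)]
  rw [hzpos] at hn1'
  push_cast at hn1'
  have ht' : 2 * x = t := by
    have h4 : (2 * x : K) = t := by
      rw [← ht, hx', hx]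
      ring
    exact_mod_cast h4
  have hty : (t : ℚ) ^ 2 + n * (2 * y) ^ 2 = 4 := by
    rw [← ht']
    linear_combination 4 * hn1'
  have htb : t ^ 2 ≤ 4 := by
    have h4 : (t : ℚ) ^ 2 ≤ 4 := by
      have := mul_nonneg hnQ.le (sq_nonneg (2 * y))
      linarith
    exact_mod_cast h4
  have ht2 : -2 ≤ t ∧ t ≤ 2 := ⟨by nlinarith, by nlinarith⟩
  have hcases : t = 2 ∨ t = -2 := by
    have h5 : t = -2 ∨ t = -1 ∨ t = 0 ∨ t = 1 ∨ t = 2 := by omega
    rcases h5 with h | h | h | h | h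
    · right; exact h
    · exfalso
      rw [h] at hty
      push_cast at hty
      exact h3 (sf_eq_rat Nat.prime_three.squarefree hn (q := n * (2 * y))
        (by push_cast; linear_combination (-(n : ℚ)) * hty)).symm
    · exfalso
      rw [h] at hty
      push_cast at hty
      exact h1 (sf_eq_rat squarefree_one hn (q := n * y)
        (by push_cast; linear_combination (-(n : ℚ) / 4) * hty)).symm
    · exfalso
      rw [h] at hty
      push_cast at hty
      exact h3 (sf_eq_rat Nat.prime_three.squarefree hn (q := n * (2 * y))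
        (by push_cast; linear_combination (-(n : ℚ)) * hty)).symm
    · left; exact h
  have hy0 : y = 0 := by
    have h6 : (t : ℚ) ^ 2 = 4 := by
      rcases hcases with h | h <;> rw [h] <;> norm_num
    have h7 : (n : ℚ) * (2 * y) ^ 2 = 0 := by linarith
    have h8 : (2 * y) ^ 2 = 0 := by
      rcases mul_eq_zero.1 h7 with h | h
      · exact absurd h hnQ.ne'
      · exact h
    have h9 : 2 * y = 0 := pow_eq_zero_iff two_ne_zero |>.1 h8
    linarith
  have hxx : x = 1 ∨ x = -1 := by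
    rcases hcases with h | h
    · left; rw [h] at ht'; push_cast at ht'; linarith
    · right; rw [h] at ht'; push_cast at ht'; linarith
  -- the generator
  obtain ⟨u, v, hu, -⟩ := decomp hs0 hσs hσ2 hσ (g : K)
  have hgK : (g : K) ^ 2 * ((ε : 𝓞 K) : K) = (b : K) := by
    have := congrArg (fun w : 𝓞 K => (w : K)) hε
    simpa using this
  rw [hx, hy0, hu] at hgK
  have hgK2 : (((u ^ 2 - n * v ^ 2) * x : ℚ) : K) + ((2 * u * v * x : ℚ) : K) * s = ((b : ℚ) : K) := by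
    push_cast
    rw [← hgK]
    linear_combination ((v : K) ^ 2 * x) * (-hs)
  obtain ⟨k1, k2⟩ := uniq hs0 hσs hgK2
  have hx0 : x ≠ 0 := by rcases hxx with h | h <;> rw [h] <;> norm_num
  have huv : u = 0 ∨ v = 0 := by
    have h4 : u * v = 0 := by
      have h5 : (2 * x) * (u * v) = 0 := by linarith
      rcases mul_eq_zero.1 h5 with h | h
      · exact absurd h (mul_ne_zero two_ne_zero hx0)
      · exact h
    exact mul_eq_zero.1 h4
  rcases huv with h | h
  · right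
    subst h
    have h5 : (n : ℚ) * v ^ 2 = b := by
      rcases hxx with h | h
      · rw [h] at k1
        have := mul_nonneg hnQ.le (sq_nonneg v)
        nlinarith
      · rw [h] at k1
        linarith
    exact (sf_eq_rat hn hb (q := n * v) (by rw [← h5]; ring)).symm
  · left
    subst h
    have h5 : u ^ 2 = b := by
      rcases hxx with h | h
      · rw [h] at k1
        linarith
      · rw [h] at k1
        nlinarith [sq_nonneg u]
    exact (sf_eq_rat squarefree_one hb (q := u) (by push_cast; rw [h5]; ring)).symm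

open scoped Classical in
theorem t_AMB2 : S_AMB1 → S_AMB := by
  intro hA K _ _ h2 n hn ⟨s, hs⟩ c hc
  obtain ⟨hex, hcl⟩ := hA K h2 n hn ⟨s, hs⟩
  have hN := rn_sf hn
  have hn0 : 0 < n := Nat.pos_of_ne_zero hn.ne_zero
  -- the element s
  have hsint : IsIntegral ℤ s := by
    refine ⟨Polynomial.X ^ 2 + Polynomial.C (n : ℤ), ?_, ?_⟩
    · exact Polynomial.monic_X_pow_add_C _ two_ne_zero
    · simp [hs]
  obtain ⟨S, hS⟩ : ∃ S : 𝓞 K, (S : K) = s := ⟨⟨s, hsint⟩, rfl⟩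
  have hS2 : S ^ 2 = -((n : ℕ) : 𝓞 K) := by
    apply RingOfIntegers.ext
    have h9 : (algebraMap (𝓞 K) K) S = s := hS
    simp only [map_pow, map_neg, map_natCast, h9, hs]
  have hS0 : S ≠ 0 := by
    rintro rfl
    rw [zero_pow two_ne_zero, eq_comm, neg_eq_zero] at hS2
    exact hn.ne_zero (by exact_mod_cast hS2)
  -- the nontrivial principal ideal
  obtain ⟨n', hn'N, hn'1, hPn', hH⟩ : ∃ n' : ℕ, n' ∣ Rn n ∧ n' ≠ 1 ∧ P K n' 1 ∧
      ∀ b, b ∣ Rn n → P K b 1 → b = 1 ∨ b = n' := by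
    by_cases h1 : n = 1
    · subst h1
      have hR : Rn 1 = 2 := by simp [Rn]
      refine ⟨2, by rw [hR], by norm_num, ?_, ?_⟩
      · have hS1 : S * (-S) = 1 := by
          linear_combination (-1 : 𝓞 K) * hS2
        have hu : IsUnit S := IsUnit.of_mul_eq_one _ hS1
        refine P_span (x := 1 + S) ?_ ?_
        · intro h
          have h4 : S = -1 := by linear_combination h
          rw [h4] at hS2
          push_cast at hS2
          have h5 : (2 : 𝓞 K) = 0 := by linear_combination hS2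
          exact two_ne_zero h5
        · rw [Ideal.span_singleton_pow, Ideal.span_singleton_eq_span_singleton]
          have h4 : (1 + S) ^ 2 = ((2 : ℕ) : 𝓞 K) * S := by
            push_cast
            linear_combination hS2
          rw [h4]
          exact ⟨hu.unit⁻¹, by rw [mul_assoc, IsUnit.mul_val_inv, mul_one]⟩
      · intro b hb _
        rw [hR] at hb
        exact (Nat.dvd_prime Nat.prime_two).1 hb
    · refine ⟨n, ?_, h1, ?_, ?_⟩
      · unfold Rn
        split_ifs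
        · exact Dvd.intro_left 2 rfl
        · exact dvd_rfl
      · refine P_span hS0 ?_
        rw [Ideal.span_singleton_pow, hS2, Ideal.span_singleton_neg]
      · intro b hb hP
        by_cases h3 : n = 3
        · subst h3
          have hR : Rn 3 = 3 := by simp [Rn]
          rw [hR] at hb
          exact (Nat.dvd_prime Nat.prime_three).1 hb
        · exact P_one h2 hn hs (hN.squarefree_of_dvd hb) h1 h3 hP
  obtain ⟨b₀, hb₀, I₀, hI₀, hI₀c⟩ := hcl c hc
  have hP0 : P K b₀ c := ⟨I₀, hI₀, hI₀c⟩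
  have hb₀s := hN.squarefree_of_dvd hb₀
  have hset : ((Rn n).divisors.filter fun b => P K b c) = {b₀, st n' b₀} := by
    ext b
    rw [Finset.mem_filter, Nat.mem_divisors, Finset.mem_insert, Finset.mem_singleton]
    constructor
    · rintro ⟨⟨hb, _⟩, hP⟩
      have hbs := hN.squarefree_of_dvd hb
      have h4 := P_st hN hb hb₀ hex hP hP0
      rw [← sq, hc] at h4
      have h5 := st_st hbs hb₀s
      rcases hH _ (st_dvd hN hb hb₀) h4 with h | h
      · left
        rw [← h5, h, st_one]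
      · right
        rw [← h5, h]
    · rintro (rfl | rfl)
      · exact ⟨⟨hb₀, hN.ne_zero⟩, hP0⟩
      · refine ⟨⟨st_dvd hN hn'N hb₀, hN.ne_zero⟩, ?_⟩
        have h4 := P_st hN hn'N hb₀ hex hPn' hP0
        rwa [one_mul] at h4
  have hne : b₀ ≠ st n' b₀ := by
    intro h
    have h4 := st_st (hN.squarefree_of_dvd hn'N) hb₀s
    rw [← h, st_self hb₀s.ne_zero] at h4
    exact hn'1 h4.symm
  have hcard : ((Rn n).divisors.filter fun b => P K b c).card = 2 := by
    rw [hset, Finset.card_pair hne]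
  exact hcard

end Pool.Agent.Y688.FK
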